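import Mathlib

/-!
# Non-uniform lower bound for private anonymized histograms

We answer Q1 of `MP_c9d3d4_lc` in the positive.
-/

open Finset MeasureTheory
open scoped ENNReal

namespace Pool.Agent.Results.MP_c9d3d4_lc.NonuniformLower

/-- An integer partition: a non-increasing sequence of non-negative integers with finitely many
non-zero terms. -/
structure IsPart (p : ℕ → ℕ) : Prop where
  anti : Antitone p
  fin : (Function.support p).Finite

/-- The size of a partition. -/
noncomputable def size (p : ℕ → ℕ) : ℕ := ∑ᶠ i, p i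

/-- Partitions of size exactly `n`. -/
def PartEq (n : ℕ) : Set (ℕ → ℕ) := {p | IsPart p ∧ size p = n}

/-- Partitions of size at most `n`. -/
def PartLe (n : ℕ) : Set (ℕ → ℕ) := {p | IsPart p ∧ size p ≤ n}

/-- The `ℓ₁`-distance of two real sequences. -/
noncomputable def dist1 (x y : ℕ → ℝ) : ℝ≥0∞ := ∑' i, ENNReal.ofReal |x i - y i|

/-- Neighbouring partitions. -/
def Neighbours (p q : ℕ → ℕ) : Prop := dist1 (fun i => (p i : ℝ)) (fun i => (q i : ℝ)) ≤ 1

/-- A randomized algorithm `A` with inputs in `PartLe n` and real sequences as outputs: `A p` is the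
distribution of the output on input `p`. -/
def IsAlg (n : ℕ) (A : (ℕ → ℕ) → Measure (ℕ → ℝ)) : Prop :=
  ∀ p ∈ PartLe n, IsProbabilityMeasure (A p)

/-- `ε`-differential privacy on `PartLe n`. -/
def IsDP (ε : ℝ) (n : ℕ) (A : (ℕ → ℕ) → Measure (ℕ → ℝ)) : Prop :=
  ∀ p ∈ PartLe n, ∀ q ∈ PartLe n, Neighbours p q → ∀ S : Set (ℕ → ℝ), MeasurableSet S →
    A p S ≤ ENNReal.ofReal (Real.exp ε) * A q S

/-- The expected `ℓ₁`-error of `A` on the input `p`. -/
noncomputable def err (A : (ℕ → ℕ) → Measure (ℕ → ℝ)) (p : ℕ → ℕ) : ℝ≥0∞ :=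
  ∫⁻ x, dist1 x (fun i => (p i : ℝ)) ∂(A p)

/-! ## The finite core -/

lemma pointwise {K u v t : ℝ} (ht : 0 < t) (hu : 0 ≤ u) (hv0 : 0 ≤ v) (hv : v ≤ K) :
    K * (2 / t - (1 + u) / t ^ 2) - 2 * v / t ≤ (K - v) / (1 + u) := by
  have hs : 0 < 1 + u := by linarith
  have hw : 0 ≤ K - v := by linarith
  have htan : 2 / t - (1 + u) / t ^ 2 ≤ 1 / (1 + u) := by
    rw [div_sub_div _ _ ht.ne' (by positivity), div_le_div_iff₀ (by positivity) hs]
    nlinarith [mul_nonneg ht.le (sq_nonneg (t - (1 + u)))]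
  by_cases h : 0 ≤ 2 / t - (1 + u) / t ^ 2
  · have h1 : (K - v) * (2 / t - (1 + u) / t ^ 2) ≤ (K - v) / (1 + u) := by
      rw [div_eq_mul_one_div (K - v)]
      exact mul_le_mul_of_nonneg_left htan hw
    have h2 : v * (2 / t - (1 + u) / t ^ 2) ≤ 2 * v / t := by
      have : 0 ≤ v * ((1 + u) / t ^ 2) := by positivity
      have h3 : 2 * v / t = v * (2 / t) := by ring
      rw [h3, mul_sub]
      linarith
    linarith [h1, h2, mul_sub K 1 1]
  · push Not at h
    have hK : 0 ≤ K := by linarith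
    have h1 : K * (2 / t - (1 + u) / t ^ 2) ≤ 0 := by nlinarith
    have h2 : 0 ≤ 2 * v / t := by positivity
    have h3 : 0 ≤ (K - v) / (1 + u) := by positivity
    linarith

/-- double counting: pairs (set of size `K`, element) and pairs (set of size `K + 1`, element) -/
lemma swap_sum {k : ℕ} (K : ℕ) (F : Finset (Fin k) → Fin k → ℝ) :
    ∑ y ∈ powersetCard K (univ : Finset (Fin k)), ∑ i ∈ yᶜ, F y i =
      ∑ x ∈ powersetCard (K + 1) (univ : Finset (Fin k)), ∑ i ∈ x, F (x.erase i) i := by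
  rw [sum_sigma', sum_sigma']
  refine sum_bij' (fun p _ => ⟨insert p.2 p.1, p.2⟩) (fun p _ => ⟨p.1.erase p.2, p.2⟩)
    ?_ ?_ ?_ ?_ ?_
  · rintro ⟨y, i⟩ h
    simp only [mem_sigma, mem_powersetCard_univ, mem_compl] at h ⊢
    exact ⟨by rw [card_insert_of_notMem h.2, h.1], mem_insert_self _ _⟩
  · rintro ⟨x, i⟩ h
    simp only [mem_sigma, mem_powersetCard_univ, mem_compl] at h ⊢
    exact ⟨by rw [card_erase_of_mem h.2, h.1]; rfl, notMem_erase _ _⟩
  · rintro ⟨y, i⟩ h
    simp only [mem_sigma, mem_powersetCard_univ, mem_compl] at h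
    simp [erase_insert h.2]
  · rintro ⟨x, i⟩ h
    simp only [mem_sigma, mem_powersetCard_univ] at h
    simp [insert_erase h.2]
  · rintro ⟨y, i⟩ h
    simp only [mem_sigma, mem_powersetCard_univ, mem_compl] at h
    simp [erase_insert h.2]

/-- the finite decoding bound -/
lemma core (K : ℕ) (hK : 1 ≤ K) {E : ℝ} (hE : 2 ≤ E)
    (Q : Finset (Fin (2 * K)) → Finset (Fin (2 * K)) → ℝ) (h0 : ∀ S Z, 0 ≤ Q S Z)
    (hlow : ∀ S, S.card + 1 = K → ∑ Z, Q S Z ≤ 1) (hK1 : ∀ S, S.card = K → ∑ Z, Q S Z = 1)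
    (hDP : ∀ y i, y.card + 1 = K → i ∉ y → ∀ Z, Q (insert i y) Z ≤ E * Q y Z) :
    ∃ x : Finset (Fin (2 * K)), x.card = K ∧
      K / E - 1 ≤ ∑ Z, Q x Z * ((Z \ x).card + (x \ Z).card : ℝ) := by
  obtain ⟨L, rfl⟩ : ∃ L, K = L + 1 := ⟨K - 1, by omega⟩
  have hEpos : 0 < E := by linarith
  set P0 := powersetCard L (univ : Finset (Fin (2 * (L + 1)))) with hP0
  set P1 := powersetCard (L + 1) (univ : Finset (Fin (2 * (L + 1)))) with hP1
  have hc0 : P0.card = (2 * (L + 1)).choose L := by simp [hP0]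
  have hc1 : P1.card = (2 * (L + 1)).choose (L + 1) := by simp [hP1]
  have hc01 : P0.card ≤ P1.card := by
    rw [hc0, hc1]
    have h := Nat.choose_le_centralBinom L (L + 1)
    rw [Nat.centralBinom_eq_two_mul_choose] at h
    exact h
  have hc1pos : 0 < P1.card := by
    rw [hc1]
    exact Nat.choose_pos (by omega)
  have hc1R : (0 : ℝ) < P1.card := by exact_mod_cast hc1pos
  -- guess
  let g : Finset (Fin (2 * (L + 1))) → Fin (2 * (L + 1)) → Finset (Fin (2 * (L + 1))) → ℝ :=
    fun y i Z => if i ∈ Z then 1 / ((Z \ y).card : ℝ) else 0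
  have hg0 : ∀ y i Z, 0 ≤ g y i Z := by
    intro y i Z
    simp only [g]
    split_ifs
    · positivity
    · exact le_refl _
  have hgsum : ∀ y Z, ∑ i ∈ yᶜ, g y i Z ≤ 1 := by
    intro y Z
    simp only [g]
    rw [← sum_filter, sum_const, nsmul_eq_mul]
    have : yᶜ.filter (fun i => i ∈ Z) = Z \ y := by
      ext i
      simp [and_comm]
    rw [this]
    by_cases h : ((Z \ y).card : ℝ) = 0
    · rw [h]; norm_num
    · rw [mul_one_div_cancel h]
  have hup : ∑ y ∈ P0, ∑ i ∈ yᶜ, ∑ Z, Q (insert i y) Z * g y i Z ≤ E * P0.card := by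
    calc ∑ y ∈ P0, ∑ i ∈ yᶜ, ∑ Z, Q (insert i y) Z * g y i Z ≤
        ∑ y ∈ P0, ∑ i ∈ yᶜ, ∑ Z, E * Q y Z * g y i Z := by
          apply sum_le_sum
          intro y hy
          apply sum_le_sum
          intro i hi
          apply sum_le_sum
          intro Z _
          apply mul_le_mul_of_nonneg_right _ (hg0 y i Z)
          apply hDP y i _ (mem_compl.1 hi)
          rw [mem_powersetCard_univ.1 hy]
      _ ≤ ∑ y ∈ P0, E := by
          apply sum_le_sum
          intro y hy
          rw [sum_comm]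
          calc ∑ Z, ∑ i ∈ yᶜ, E * Q y Z * g y i Z = ∑ Z, E * Q y Z * ∑ i ∈ yᶜ, g y i Z :=
                sum_congr rfl fun Z _ => by rw [mul_sum]
            _ ≤ ∑ Z, E * Q y Z * 1 := by
                apply sum_le_sum
                intro Z _
                apply mul_le_mul_of_nonneg_left (hgsum y Z)
                have := h0 y Z
                positivity
            _ = E * ∑ Z, Q y Z := by
                rw [mul_sum]
                exact sum_congr rfl fun Z _ => by ring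
            _ ≤ E * 1 := by
                apply mul_le_mul_of_nonneg_left _ hEpos.le
                apply hlow
                rw [mem_powersetCard_univ.1 hy]
            _ = E := mul_one E
      _ = E * P0.card := by rw [sum_const, nsmul_eq_mul, mul_comm]
  have hswap : ∑ y ∈ P0, ∑ i ∈ yᶜ, ∑ Z, Q (insert i y) Z * g y i Z =
      ∑ x ∈ P1, ∑ Z, Q x Z * ((x ∩ Z).card / (1 + (Z \ x).card : ℝ)) := by
    rw [hP0, hP1, swap_sum L (fun y i => ∑ Z, Q (insert i y) Z * g y i Z)]
    apply sum_congr rfl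
    intro x _
    rw [sum_comm]
    apply sum_congr rfl
    intro Z _
    have h1 : ∀ i ∈ x, Q (insert i (x.erase i)) Z * g (x.erase i) i Z =
        Q x Z * (if i ∈ Z then 1 / (1 + (Z \ x).card : ℝ) else 0) := by
      intro i hi
      rw [insert_erase hi]
      simp only [g]
      split_ifs with hZ
      · have h2 : Z \ x.erase i = insert i (Z \ x) := by
          ext j
          simp only [mem_sdiff, mem_erase, mem_insert]
          constructor
          · rintro ⟨h3, h4⟩
            by_cases hj : j = i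
            · exact Or.inl hj
            · exact Or.inr ⟨h3, fun h5 => h4 ⟨hj, h5⟩⟩
          · rintro (rfl | ⟨h3, h4⟩)
            · exact ⟨hZ, fun h5 => h5.1 rfl⟩
            · exact ⟨h3, fun h5 => h4 h5.2⟩
        have h3 : i ∉ Z \ x := fun h => (mem_sdiff.1 h).2 hi
        rw [h2, card_insert_of_notMem h3]
        push_cast
        rw [add_comm]
      · rfl
    rw [sum_congr rfl h1, ← mul_sum, ← sum_filter, sum_const, nsmul_eq_mul]
    have h4 : x.filter (fun i => i ∈ Z) = x ∩ Z := by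
      ext j
      simp
    rw [h4]
    ring
  -- averages
  set a : ℝ := (∑ x ∈ P1, ∑ Z, Q x Z * ((Z \ x).card : ℝ)) / P1.card with ha
  set b : ℝ := (∑ x ∈ P1, ∑ Z, Q x Z * ((x \ Z).card : ℝ)) / P1.card with hb
  have ha0 : 0 ≤ a := by
    apply div_nonneg _ hc1R.le
    apply sum_nonneg
    intro x _
    apply sum_nonneg
    intro Z _
    have := h0 x Z
    positivity
  have hb0 : 0 ≤ b := by
    apply div_nonneg _ hc1R.le
    apply sum_nonneg
    intro x _
    apply sum_nonneg
    intro Z _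
    have := h0 x Z
    positivity
  set t : ℝ := 1 + a with ht
  have htpos : 0 < t := by linarith
  have hlowb : (P1.card : ℝ) * (((L + 1 : ℕ) : ℝ) * (2 / t - (1 + a) / t ^ 2) - 2 * b / t) ≤
      ∑ x ∈ P1, ∑ Z, Q x Z * ((x ∩ Z).card / (1 + (Z \ x).card : ℝ)) := by
    have h1 : ∀ x ∈ P1, ∀ Z, Q x Z * (((L + 1 : ℕ) : ℝ) *
        (2 / t - (1 + ((Z \ x).card : ℝ)) / t ^ 2) - 2 * ((x \ Z).card : ℝ) / t) ≤
        Q x Z * ((x ∩ Z).card / (1 + (Z \ x).card : ℝ)) := by
      intro x hx Z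
      apply mul_le_mul_of_nonneg_left _ (h0 x Z)
      have hxc := mem_powersetCard_univ.1 hx
      have h2 : (x ∩ Z).card + (x \ Z).card = x.card := card_inter_add_card_sdiff x Z
      have h3 : ((x ∩ Z).card : ℝ) = ((L + 1 : ℕ) : ℝ) - ((x \ Z).card : ℝ) := by
        rw [eq_sub_iff_add_eq]
        exact_mod_cast h2.trans hxc
      rw [h3]
      apply pointwise htpos (by positivity) (by positivity)
      have : (x \ Z).card ≤ L + 1 := by omega
      exact_mod_cast this
    calc _ = ∑ x ∈ P1, ∑ Z, Q x Z * (((L + 1 : ℕ) : ℝ) *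
        (2 / t - (1 + ((Z \ x).card : ℝ)) / t ^ 2) - 2 * ((x \ Z).card : ℝ) / t) := by
          have h2 : ∀ x ∈ P1, ∑ Z, Q x Z * (((L + 1 : ℕ) : ℝ) *
              (2 / t - (1 + ((Z \ x).card : ℝ)) / t ^ 2) - 2 * ((x \ Z).card : ℝ) / t) =
              ((L + 1 : ℕ) : ℝ) * (2 / t - 1 / t ^ 2) -
              ((L + 1 : ℕ) : ℝ) / t ^ 2 * (∑ Z, Q x Z * ((Z \ x).card : ℝ)) -
              2 / t * (∑ Z, Q x Z * ((x \ Z).card : ℝ)) := by
            intro x hx
            have h3 := hK1 x (mem_powersetCard_univ.1 hx)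
            calc _ = ∑ Z, ((((L + 1 : ℕ) : ℝ) * (2 / t - 1 / t ^ 2)) * Q x Z -
                ((L + 1 : ℕ) : ℝ) / t ^ 2 * (Q x Z * ((Z \ x).card : ℝ)) -
                2 / t * (Q x Z * ((x \ Z).card : ℝ))) :=
                  sum_congr rfl fun Z _ => by ring
              _ = _ := by
                  rw [sum_sub_distrib, sum_sub_distrib, ← mul_sum, ← mul_sum, ← mul_sum, h3,
                    mul_one]
          rw [sum_congr rfl h2, sum_sub_distrib, sum_sub_distrib, sum_const, nsmul_eq_mul,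
            ← mul_sum, ← mul_sum]
          have h4 : ∑ x ∈ P1, ∑ Z, Q x Z * ((Z \ x).card : ℝ) = a * P1.card := by
            rw [ha, div_mul_cancel₀ _ hc1R.ne']
          have h5 : ∑ x ∈ P1, ∑ Z, Q x Z * ((x \ Z).card : ℝ) = b * P1.card := by
            rw [hb, div_mul_cancel₀ _ hc1R.ne']
          rw [h4, h5]
          ring
      _ ≤ _ := sum_le_sum fun x hx => sum_le_sum fun Z _ => h1 x hx Z
  have hmain : (P1.card : ℝ) * (((L + 1 : ℕ) : ℝ) * (2 / t - (1 + a) / t ^ 2) - 2 * b / t) ≤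
      P1.card * E := by
    refine hlowb.trans (hswap ▸ hup.trans ?_)
    have : (P0.card : ℝ) ≤ P1.card := by exact_mod_cast hc01
    nlinarith
  have hmain2 := le_of_mul_le_mul_left hmain hc1R
  have h6 : ((L + 1 : ℕ) : ℝ) * (2 / t - (1 + a) / t ^ 2) - 2 * b / t =
      (((L + 1 : ℕ) : ℝ) - 2 * b) / t := by
    rw [← ht]
    field_simp
    ring
  rw [h6, div_le_iff₀ htpos] at hmain2
  have h7 : ((L + 1 : ℕ) : ℝ) / E - 1 ≤ a + b := by
    rw [sub_le_iff_le_add, div_le_iff₀ hEpos]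
    nlinarith
  -- some x
  by_contra hcon
  push Not at hcon
  have h8 : ∑ x ∈ P1, ∑ Z, Q x Z * ((Z \ x).card + (x \ Z).card : ℝ) <
      ∑ x ∈ P1, (((L + 1 : ℕ) : ℝ) / E - 1) := by
    apply sum_lt_sum_of_nonempty (card_pos.1 hc1pos)
    intro x hx
    exact hcon x (mem_powersetCard_univ.1 hx)
  have h9 : ∑ x ∈ P1, ∑ Z, Q x Z * ((Z \ x).card + (x \ Z).card : ℝ) = (a + b) * P1.card := by
    rw [ha, hb, ← add_div, div_mul_cancel₀ _ hc1R.ne', ← sum_add_distrib]
    apply sum_congr rfl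
    intro x _
    rw [← sum_add_distrib]
    exact sum_congr rfl fun Z _ => by ring
  rw [h9, sum_const, nsmul_eq_mul, mul_comm] at h8
  have h10 := lt_of_mul_lt_mul_left h8 hc1R.le
  linarith

/-! ## The hard instances -/

/-- the partition encoding the subset `x`: a big first part `M`, then `2 (k - j) + [j ∈ x]` -/
def enc (M k : ℕ) (x : Finset (Fin k)) : ℕ → ℕ
  | 0 => M
  | (j + 1) => if h : j < k then 2 * (k - j) + (if (⟨j, h⟩ : Fin k) ∈ x then 1 else 0) else 0

lemma enc_succ {M k : ℕ} (x : Finset (Fin k)) (j : Fin k) :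
    enc M k x (j + 1) = 2 * (k - j) + (if j ∈ x then 1 else 0) := by
  simp [enc]

lemma enc_support {M k : ℕ} (x : Finset (Fin k)) :
    Function.support (enc M k x) ⊆ (range (k + 1) : Finset ℕ) := by
  intro i hi
  rw [Function.mem_support] at hi
  rw [coe_range, Set.mem_Iio]
  by_contra hcon
  apply hi
  cases i with
  | zero => omega
  | succ j =>
    have : ¬ j < k := by omega
    simp [enc, this]

lemma enc_isPart {M k : ℕ} (hM : 2 * k + 1 ≤ M) (x : Finset (Fin k)) : IsPart (enc M k x) where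
  anti := by
    apply antitone_nat_of_succ_le
    intro i
    cases i with
    | zero =>
      simp only [enc]
      split_ifs <;> omega
    | succ j =>
      simp only [enc]
      split_ifs <;> omega
  fin := (finite_toSet _).subset (enc_support x)

lemma enc_size {M k : ℕ} (x : Finset (Fin k)) :
    size (enc M k x) = M + k * (k + 1) + x.card := by
  unfold size
  rw [finsum_eq_sum_of_support_subset _ (enc_support x), sum_range_succ', ← Fin.sum_univ_eq_sum_range
    (fun j => enc M k x (j + 1)) k]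
  have h1 : ∑ j : Fin k, enc M k x (j + 1) = ∑ j : Fin k, 2 * (k - (j : ℕ)) + x.card := by
    have h2 : x.card = ∑ j : Fin k, (if j ∈ x then 1 else 0) := by
      rw [← card_filter]
      congr 1
      ext j
      simp
    rw [h2, ← sum_add_distrib]
    exact sum_congr rfl fun j _ => enc_succ x j
  have h3 : ∑ j : Fin k, 2 * (k - (j : ℕ)) = k * (k + 1) := by
    rw [Fin.sum_univ_eq_sum_range (fun j => 2 * (k - j)) k]
    clear h1
    induction k with
    | zero => rfl
    | succ k ih =>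
      rw [sum_range_succ']
      have h4 : ∀ j ∈ range k, 2 * (k + 1 - (j + 1)) = 2 * (k - j) := by
        intro j _
        omega
      rw [sum_congr rfl h4, ih ∅]
      simp only [Nat.sub_zero]
      ring
  rw [h1, h3]
  simp only [enc]
  ring

lemma enc_neighbours {M k : ℕ} (y : Finset (Fin k)) (i : Fin k) (hi : i ∉ y) :
    Neighbours (enc M k (insert i y)) (enc M k y) := by
  unfold Neighbours dist1
  have h1 : ∀ j, j ≠ (i : ℕ) + 1 → enc M k (insert i y) j = enc M k y j := by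
    intro j hj
    cases j with
    | zero => rfl
    | succ j =>
      simp only [enc]
      by_cases h : j < k
      · rw [dif_pos h, dif_pos h]
        have h2 : (⟨j, h⟩ : Fin k) ≠ i := by
          intro h3
          apply hj
          rw [← h3]
        have h3 : ((⟨j, h⟩ : Fin k) ∈ insert i y) ↔ ((⟨j, h⟩ : Fin k) ∈ y) := by
          rw [mem_insert]
          exact ⟨fun h4 => h4.resolve_left h2, Or.inr⟩
        simp only [h3]
      · rw [dif_neg h, dif_neg h]
  rw [tsum_eq_single ((i : ℕ) + 1)]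
  · beta_reduce
    rw [enc_succ, enc_succ, if_pos (mem_insert_self _ _), if_neg hi]
    have : ((2 * (k - i) + 1 : ℕ) : ℝ) - ((2 * (k - i) + 0 : ℕ) : ℝ) = 1 := by
      push_cast
      ring
    rw [this]
    simp
  · intro j hj
    beta_reduce
    rw [h1 j hj]
    simp

/-! ## The decoder -/

open Classical in
/-- rounding an output to a subset -/
noncomputable def dec (k : ℕ) (ω : ℕ → ℝ) : Finset (Fin k) :=
  univ.filter (fun j => (2 * (k - (j : ℕ)) : ℕ) + 1 / 2 ≤ ω (j + 1))

lemma mem_dec {k : ℕ} (ω : ℕ → ℝ) (j : Fin k) :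
    j ∈ dec k ω ↔ ((2 * (k - (j : ℕ)) : ℕ) : ℝ) + 1 / 2 ≤ ω (j + 1) := by
  unfold dec
  simp

lemma dec_meas (k : ℕ) (Z : Finset (Fin k)) : MeasurableSet (dec k ⁻¹' {Z}) := by
  have h1 : dec k ⁻¹' {Z} = ⋂ j : Fin k,
      {ω : ℕ → ℝ | (((2 * (k - (j : ℕ)) : ℕ) : ℝ) + 1 / 2 ≤ ω (j + 1)) ↔ j ∈ Z} := by
    ext ω
    simp only [Set.mem_preimage, Set.mem_singleton_iff, Set.mem_iInter, Set.mem_ofPred_eq]
    rw [Finset.ext_iff]
    exact forall_congr' fun j => by rw [mem_dec]
  rw [h1]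
  apply MeasurableSet.iInter
  intro j
  have h2 : MeasurableSet {ω : ℕ → ℝ | ((2 * (k - (j : ℕ)) : ℕ) : ℝ) + 1 / 2 ≤ ω (j + 1)} :=
    measurableSet_le measurable_const (measurable_pi_apply _)
  by_cases h : j ∈ Z
  · have h3 : {ω : ℕ → ℝ | (((2 * (k - (j : ℕ)) : ℕ) : ℝ) + 1 / 2 ≤ ω (j + 1)) ↔ j ∈ Z} =
      {ω : ℕ → ℝ | ((2 * (k - (j : ℕ)) : ℕ) : ℝ) + 1 / 2 ≤ ω (j + 1)} := by
      ext ω
      simp only [Set.mem_ofPred_eq, h, iff_true]
    rw [h3]
    exact h2
  · have h3 : {ω : ℕ → ℝ | (((2 * (k - (j : ℕ)) : ℕ) : ℝ) + 1 / 2 ≤ ω (j + 1)) ↔ j ∈ Z} =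
      {ω : ℕ → ℝ | ((2 * (k - (j : ℕ)) : ℕ) : ℝ) + 1 / 2 ≤ ω (j + 1)}ᶜ := by
      ext ω
      simp only [Set.mem_ofPred_eq, h, iff_false, Set.mem_compl_iff]
    rw [h3]
    exact h2.compl

lemma dec_err {M k : ℕ} (x : Finset (Fin k)) (ω : ℕ → ℝ) :
    ENNReal.ofReal (((dec k ω) \ x).card + (x \ (dec k ω)).card : ℝ) ≤
      2 * dist1 ω (fun i => (enc M k x i : ℝ)) := by
  have h1 : (((dec k ω) \ x).card + (x \ (dec k ω)).card : ℝ) ≤
      ∑ j : Fin k, 2 * |ω (j + 1) - enc M k x (j + 1)| := by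
    have h2 : (((dec k ω) \ x).card + (x \ (dec k ω)).card : ℝ) =
        ∑ j : Fin k, ((if j ∈ (dec k ω) \ x then (1 : ℝ) else 0) +
          (if j ∈ x \ (dec k ω) then 1 else 0)) := by
      have cnt : ∀ T : Finset (Fin k), (T.card : ℝ) = ∑ j, (if j ∈ T then (1 : ℝ) else 0) := by
        intro T
        simp
      rw [sum_add_distrib, ← cnt, ← cnt]
    rw [h2]
    apply sum_le_sum
    intro j _
    rw [enc_succ]
    simp only [mem_sdiff, mem_dec]
    set c : ℕ := 2 * (k - (j : ℕ))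
    by_cases hx : j ∈ x
    · by_cases hd : ((c : ℕ) : ℝ) + 1 / 2 ≤ ω (j + 1)
      · rw [if_neg (fun h => h.2 hx), if_neg (fun h => h.2 hd), add_zero]
        positivity
      · rw [if_neg (fun h => h.2 hx), if_pos ⟨hx, hd⟩, if_pos hx, zero_add]
        push Not at hd
        rw [abs_of_neg (by push_cast; linarith)]
        push_cast
        linarith
    · by_cases hd : ((c : ℕ) : ℝ) + 1 / 2 ≤ ω (j + 1)
      · rw [if_pos ⟨hd, hx⟩, if_neg (fun h => hx h.1), if_neg hx, add_zero]
        rw [abs_of_pos (by push_cast; linarith)]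
        push_cast
        linarith
      · rw [if_neg (fun h => hd h.1), if_neg (fun h => hx h.1), add_zero]
        positivity
  refine (ENNReal.ofReal_le_ofReal h1).trans ?_
  rw [ENNReal.ofReal_sum_of_nonneg (fun j _ => by positivity)]
  have h3 : ∀ j : Fin k, ENNReal.ofReal (2 * |ω (j + 1) - enc M k x (j + 1)|) =
      2 * ENNReal.ofReal |ω (j + 1) - enc M k x (j + 1)| := by
    intro j
    rw [ENNReal.ofReal_mul (by norm_num)]
    simp
  rw [sum_congr rfl (fun j _ => h3 j), ← mul_sum]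
  refine mul_le_mul_right ?_ 2
  unfold dist1
  rw [Fin.sum_univ_eq_sum_range
    (fun j => ENNReal.ofReal |ω (j + 1) - (enc M k x (j + 1) : ℝ)|) k]
  have h4 := ENNReal.sum_le_tsum (f := fun i => ENNReal.ofReal |ω i - (enc M k x i : ℝ)|)
    (range (k + 1))
  rw [sum_range_succ'] at h4
  exact le_trans le_self_add h4

lemma sum_prob {k : ℕ} (μ : Measure (ℕ → ℝ)) [IsProbabilityMeasure μ] :
    ∑ Z : Finset (Fin k), (μ (dec k ⁻¹' {Z})).toReal = 1 := by
  rw [← ENNReal.toReal_sum (fun Z _ => measure_ne_top μ _),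
    sum_measure_preimage_singleton _ (fun Z _ => dec_meas k Z)]
  simp

lemma lint {M k : ℕ} (x : Finset (Fin k)) (μ : Measure (ℕ → ℝ)) [IsProbabilityMeasure μ] :
    ENNReal.ofReal (∑ Z : Finset (Fin k), (μ (dec k ⁻¹' {Z})).toReal *
      ((Z \ x).card + (x \ Z).card : ℝ)) ≤
      2 * ∫⁻ ω, dist1 ω (fun i => (enc M k x i : ℝ)) ∂μ := by
  rw [ENNReal.ofReal_sum_of_nonneg (fun Z _ => by positivity)]
  have h1 : ∀ Z : Finset (Fin k), ENNReal.ofReal ((μ (dec k ⁻¹' {Z})).toReal *
      ((Z \ x).card + (x \ Z).card : ℝ)) =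
      ∫⁻ ω, (dec k ⁻¹' {Z}).indicator
        (fun _ => ENNReal.ofReal ((Z \ x).card + (x \ Z).card : ℝ)) ω ∂μ := by
    intro Z
    rw [lintegral_indicator_const (dec_meas k Z), ENNReal.ofReal_mul ENNReal.toReal_nonneg,
      ENNReal.ofReal_toReal (measure_ne_top μ _), mul_comm]
  rw [sum_congr rfl (fun Z _ => h1 Z),
    ← lintegral_finsetSum _ (fun Z _ => measurable_const.indicator (dec_meas k Z)),
    ← lintegral_const_mul' 2 _ (by norm_num)]
  apply lintegral_mono
  intro ω
  beta_reduce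
  rw [sum_eq_single (dec k ω)]
  · rw [Set.indicator_of_mem (by simp)]
    exact dec_err x ω
  · intro Z _ hZ
    rw [Set.indicator_of_notMem]
    intro h
    exact hZ h.symm
  · intro h
    exact absurd (mem_univ _) h

/-- Q1 holds: the non-uniform error of every `ε`-DP algorithm is at least `c √n / e^ε`. -/
theorem result : ∃ c : ℝ, 0 < c ∧ ∀ ε : ℝ, 1 ≤ ε → ∃ n₀ : ℕ, ∀ n : ℕ, n₀ ≤ n →
    ∀ A : (ℕ → ℕ) → Measure (ℕ → ℝ), IsAlg n A → IsDP ε n A →
      ∃ p ∈ PartEq n, ENNReal.ofReal (c * (Real.sqrt n / Real.exp ε)) ≤ err A p := by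
  refine ⟨1 / 16, by norm_num, fun ε hε => ?_⟩
  set E : ℝ := Real.exp ε with hE
  have hE2 : 2 ≤ E := by
    have := Real.add_one_le_exp ε
    linarith
  refine ⟨⌈(8 * (1 + E)) ^ 2⌉₊, fun n hn A hA hDP => ?_⟩
  set s : ℝ := Real.sqrt n with hs
  have hns : s ^ 2 = n := Real.sq_sqrt (Nat.cast_nonneg n)
  have hs8 : 8 * (1 + E) ≤ s := by
    apply Real.le_sqrt_of_sq_le
    exact (Nat.le_ceil _).trans (by exact_mod_cast hn)
  have hs24 : 24 ≤ s := by linarith
  set K : ℕ := ⌊s / 4⌋₊ with hK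
  have hKle : (K : ℝ) ≤ s / 4 := Nat.floor_le (by positivity)
  have hKge : s / 4 - 1 < K := by
    have := Nat.lt_floor_add_one (s / 4)
    linarith
  have hK1 : 1 ≤ K := by
    have : (0 : ℝ) < K := by linarith
    exact_mod_cast this
  have hbig : 2 * K * (2 * K + 1) + K + (2 * (2 * K) + 1) ≤ n := by
    have : (2 * K * (2 * K + 1) + K + (2 * (2 * K) + 1) : ℝ) ≤ n := by
      rw [← hns]
      nlinarith
    exact_mod_cast this
  set M : ℕ := n - (2 * K * (2 * K + 1) + K) with hM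
  have hMbig : 2 * (2 * K) + 1 ≤ M := by omega
  have hsize : ∀ S : Finset (Fin (2 * K)), S.card ≤ K →
      size (enc M (2 * K) S) = n - K + S.card := by
    intro S hS
    rw [enc_size]
    omega
  have hmem : ∀ S : Finset (Fin (2 * K)), S.card ≤ K → enc M (2 * K) S ∈ PartLe n := by
    intro S hS
    refine ⟨enc_isPart hMbig S, ?_⟩
    rw [hsize S hS]
    omega
  obtain ⟨x, hx, hx2⟩ := core K hK1 hE2
    (fun S Z => ((A (enc M (2 * K) S)) (dec (2 * K) ⁻¹' {Z})).toReal)
    (fun S Z => ENNReal.toReal_nonneg)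
    (fun S hS => by
      have := hA _ (hmem S (by omega))
      exact (sum_prob _).le)
    (fun S hS => by
      have := hA _ (hmem S (by omega))
      exact sum_prob _)
    (fun y i hy hi Z => by
      have h1 := hmem (insert i y) (by rw [card_insert_of_notMem hi]; omega)
      have h2 := hmem y (by omega)
      have hp1 := hA _ h1
      have hp2 := hA _ h2
      have h3 := hDP _ h1 _ h2 (enc_neighbours y i hi) _ (dec_meas (2 * K) Z)
      have h4 := ENNReal.toReal_mono
        (ENNReal.mul_ne_top ENNReal.ofReal_ne_top (measure_ne_top _ _)) h3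
      rwa [ENNReal.toReal_mul, ENNReal.toReal_ofReal (Real.exp_pos ε).le] at h4)
  refine ⟨enc M (2 * K) x, ⟨enc_isPart hMbig x, ?_⟩, ?_⟩
  · rw [hsize x (by omega)]
    omega
  · have := hA _ (hmem x (by omega))
    have h5 := lint (M := M) x (A (enc M (2 * K) x))
    have hEpos : 0 < E := by linarith
    have h6 : 2 * (1 / 16 * (s / E)) ≤ K / E - 1 := by
      have h7 : 2 * (1 / 16 * (s / E)) = (s / 8) / E := by ring
      rw [h7, le_sub_iff_add_le, ← le_sub_iff_add_le', ← sub_div, le_div_iff₀ hEpos]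
      linarith
    have h8 : 2 * ENNReal.ofReal (1 / 16 * (s / E)) ≤ 2 * err A (enc M (2 * K) x) := by
      refine le_trans (le_of_eq ?_) (le_trans (ENNReal.ofReal_le_ofReal (h6.trans hx2)) h5)
      rw [ENNReal.ofReal_mul (by norm_num)]
      simp
    exact (ENNReal.mul_le_mul_iff_right (by norm_num) (by norm_num)).1 h8

end Pool.Agent.Results.MP_c9d3d4_lc.NonuniformLower
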